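import Mathlib

/-!
# There is no `{p, q}`-Diophantine quadruple

For distinct primes `P, Q` there are no integers `0 < a < b < c < d` such that the six numbers
`ab+1, ac+1, ad+1, bc+1, bd+1, cd+1` are all of the form `P^i Q^j`.  The proof is elementary.
-/

set_option autoImplicit false

namespace Pool.Agent.H203Z.PQQuad

/-- a common divisor of `xz+1` and `yz+1` divides `y - x` -/
theorem dvd_diff {g x y z : ℕ} (hx : g ∣ x * z + 1) (hy : g ∣ y * z + 1) : g ∣ y - x := by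
  have hc : Nat.Coprime g z := by
    have h1 : Nat.Coprime (x * z + 1) z := by
      rw [add_comm, Nat.coprime_add_mul_right_left]; exact Nat.coprime_one_left z
    exact Nat.Coprime.coprime_dvd_left hx h1
  have h2 : g ∣ (y - x) * z := by
    have := Nat.dvd_sub hy hx
    rwa [Nat.add_sub_add_right, ← Nat.sub_mul] at this
  exact hc.dvd_of_dvd_mul_right h2

/-- if `(x-1)(y-1) = (z-1)(w-1)` and `g` divides three of the four numbers, it divides the fourth -/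
theorem dvd_fourth {g x y z w : ℕ} (h : x * y + z + w = z * w + x + y) (hx : g ∣ x) (hy : g ∣ y)
    (hz : g ∣ z) : g ∣ w := by
  have h1 : g ∣ x * y + z + w := by
    rw [h]; exact dvd_add (dvd_add (Dvd.dvd.mul_right hz w) hx) hy
  exact (Nat.dvd_add_right (dvd_add (Dvd.dvd.mul_right hx y) hz)).1 h1

section exps
variable {P Q : ℕ} (hP : P.Prime) (hQ : Q.Prime) (hPQ : P ≠ Q)
include hP hQ hPQ

theorem powL_dvd {k i j : ℕ} : P ^ k ∣ P ^ i * Q ^ j ↔ k ≤ i := by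
  constructor
  · intro h
    have hc : Nat.Coprime (P ^ k) (Q ^ j) :=
      Nat.Coprime.pow _ _ ((Nat.coprime_primes hP hQ).2 hPQ)
    exact (Nat.pow_dvd_pow_iff_le_right hP.one_lt).1 (hc.dvd_of_dvd_mul_right h)
  · intro h
    exact Dvd.dvd.mul_right (pow_dvd_pow _ h) _

theorem powR_dvd {k i j : ℕ} : Q ^ k ∣ P ^ i * Q ^ j ↔ k ≤ j := by
  rw [mul_comm]; exact powL_dvd hQ hP hPQ.symm

theorem minL {x y z w i1 j1 i2 j2 i3 j3 i4 j4 : ℕ} (h : x * y + z + w = z * w + x + y)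
    (hx : x = P ^ i1 * Q ^ j1) (hy : y = P ^ i2 * Q ^ j2) (hz : z = P ^ i3 * Q ^ j3)
    (hw : w = P ^ i4 * Q ^ j4) :
    (i1 ≤ i4 ∨ i2 ≤ i4 ∨ i3 ≤ i4) ∧ (j1 ≤ j4 ∨ j2 ≤ j4 ∨ j3 ≤ j4) := by
  constructor
  · by_contra hc
    have := dvd_fourth (g := P ^ (i4 + 1)) h (hx ▸ (powL_dvd hP hQ hPQ).2 (by omega))
      (hy ▸ (powL_dvd hP hQ hPQ).2 (by omega)) (hz ▸ (powL_dvd hP hQ hPQ).2 (by omega))
    rw [hw, powL_dvd hP hQ hPQ] at this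
    omega
  · by_contra hc
    have := dvd_fourth (g := Q ^ (j4 + 1)) h (hx ▸ (powR_dvd hP hQ hPQ).2 (by omega))
      (hy ▸ (powR_dvd hP hQ hPQ).2 (by omega)) (hz ▸ (powR_dvd hP hQ hPQ).2 (by omega))
    rw [hw, powR_dvd hP hQ hPQ] at this
    omega

omit hP hQ hPQ in
theorem dvd_of_exps {x y i1 j1 i2 j2 : ℕ} (hx : x = P ^ i1 * Q ^ j1) (hy : y = P ^ i2 * Q ^ j2)
    (hi : i1 ≤ i2) (hj : j1 ≤ j2) : x ∣ y := by
  rw [hx, hy]; exact mul_dvd_mul (pow_dvd_pow _ hi) (pow_dvd_pow _ hj)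

omit hP hQ hPQ in
theorem lt_exps {x y i1 j1 i2 j2 : ℕ} (hx : x = P ^ i1 * Q ^ j1) (hy : y = P ^ i2 * Q ^ j2)
    (h0 : 0 < x) (h : x < y) : i1 < i2 ∨ j1 < j2 := by
  by_contra hc
  have := Nat.le_of_dvd h0 (dvd_of_exps hy hx (by omega) (by omega))
  omega

omit hP hQ hPQ in
theorem ndvd_exps {x y z i1 j1 i2 j2 : ℕ} (hx : x * z + 1 = P ^ i1 * Q ^ j1)
    (hy : y * z + 1 = P ^ i2 * Q ^ j2) (h0 : 0 < x) (hxy : x < y) (hyz : y < z) :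
    i2 < i1 ∨ j2 < j1 := by
  by_contra hc
  have h1 := dvd_diff (dvd_refl (x * z + 1)) (dvd_of_exps hx hy (by omega) (by omega))
  have h2 := Nat.le_of_dvd (by omega) h1
  have h3 : z ≤ x * z := Nat.le_mul_of_pos_left z h0
  omega

end exps

/-- the last configuration -/
theorem final {P a b c d G X Y W U Z : ℕ} (hP : P.Prime) (ha : 0 < a) (hab : a < b) (hcd : c < d)
    (h1 : a * b + 1 = G * X) (h2 : a * c + 1 = G * (Y * W)) (h3 : a * d + 1 = G * (X * Y))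
    (h4 : b * c + 1 = G * (X * U * Y)) (h6 : c * d + 1 = G * (X * Z)) (hac : a ≤ c)
    (hX : P ∣ X) (hU : P ∣ U) (hZ : P ∣ Z) : False := by
  have hG : 0 < G := by
    rcases Nat.eq_zero_or_pos G with h | h
    · rw [h] at h1; omega
    · exact h
  have hX0 : 0 < X := by
    rcases Nat.eq_zero_or_pos X with h | h
    · rw [h] at h1; omega
    · exact h
  have hY0 : 0 < Y := by
    rcases Nat.eq_zero_or_pos Y with h | h
    · rw [h] at h2; omega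
    · exact h
  have hW0 : 0 < W := by
    rcases Nat.eq_zero_or_pos W with h | h
    · rw [h] at h2; omega
    · exact h
  -- `G ∣ a² + 1`
  have hGca : G ∣ c - a :=
    dvd_diff (z := b) (h1 ▸ dvd_mul_right G X) (by rw [mul_comm c b, h4]; exact dvd_mul_right G _)
  obtain ⟨t, ht⟩ := hGca
  have hc : c = a + G * t := by omega
  have hGa : G ∣ a * a + 1 := by
    have h5 : G ∣ a * (G * t) + (a * a + 1) := by
      have : a * (G * t) + (a * a + 1) = a * c + 1 := by rw [hc]; ring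
      rw [this, h2]; exact dvd_mul_right _ _
    exact (Nat.dvd_add_right (Dvd.dvd.mul_left (dvd_mul_right G t) a)).1 h5
  obtain ⟨k, hk⟩ := hGa
  clear ht hc
  have hkX : k < X := by
    have : G * k < G * X := by rw [← hk, ← h1]; nlinarith
    exact Nat.lt_of_mul_lt_mul_left this
  have hWX : W < X := by
    have h7 : G * (Y * W) < G * (X * Y) := by rw [← h2, ← h3]; nlinarith
    have h8 := Nat.lt_of_mul_lt_mul_left h7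
    rw [mul_comm X Y] at h8
    exact Nat.lt_of_mul_lt_mul_left h8
  have hk0 : 0 < k := by
    rcases Nat.eq_zero_or_pos k with h | h
    · rw [h] at hk; omega
    · exact h
  have hPc : ¬ P ∣ c := by
    intro h
    have h7 : P ∣ b * c + 1 := by
      rw [h4]; exact Dvd.dvd.mul_left (Dvd.dvd.mul_right (Dvd.dvd.mul_right hX _) _) _
    exact hP.one_lt.ne' (Nat.dvd_one.1 ((Nat.dvd_add_right (Dvd.dvd.mul_left h b)).1 h7))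
  have hPa : ¬ P ∣ a := by
    intro h
    have h7 : P ∣ a * b + 1 := by rw [h1]; exact Dvd.dvd.mul_left hX _
    exact hP.one_lt.ne' (Nat.dvd_one.1 ((Nat.dvd_add_right (Dvd.dvd.mul_right h b)).1 h7))
  have hPz : Prime (P : ℤ) := Nat.prime_iff_prime_int.1 hP
  have hPc' : ¬ (P : ℤ) ∣ (c : ℤ) := fun h => hPc (Int.natCast_dvd_natCast.1 h)
  have hPa' : ¬ (P : ℤ) ∣ (a : ℤ) := fun h => hPa (Int.natCast_dvd_natCast.1 h)
  have hX' : (P : ℤ) ∣ (X : ℤ) := Int.natCast_dvd_natCast.2 hX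
  have hU' : (P : ℤ) ∣ (U : ℤ) := Int.natCast_dvd_natCast.2 hU
  have hZ' : (P : ℤ) ∣ (Z : ℤ) := Int.natCast_dvd_natCast.2 hZ
  zify at h1 h2 h3 h4 h6 hk hkX hWX hk0 hG hX0 hY0 hW0
  -- the equation of the triple `(a, b, c)`
  have hE : (X : ℤ) * Y * (G * W - a * a * U) = X + Y * W - k := by
    apply mul_left_cancel₀ hG.ne'
    linear_combination (a : ℤ) * a * h4 - ((a : ℤ) * c) * h1 - ((G : ℤ) * X - 1) * h2 - hk
  have hYW : (0 : ℤ) < Y * W := mul_pos hY0 hW0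
  have hXY : (0 : ℤ) < X * Y := mul_pos hX0 hY0
  have hone : (G : ℤ) * W - a * a * U = 1 := by
    have hlo : (0 : ℤ) < G * W - a * a * U := by
      by_contra hneg
      push Not at hneg
      have := mul_nonpos_of_nonneg_of_nonpos hXY.le hneg
      linarith
    have hhi : (G : ℤ) * W - a * a * U < 2 := by
      by_contra hneg
      push Not at hneg
      have h7 := mul_le_mul_of_nonneg_left hneg hXY.le
      have h8 : (Y : ℤ) * W < Y * X := mul_lt_mul_of_pos_left hWX hY0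
      have h9 : (X : ℤ) ≤ X * Y := le_mul_of_one_le_right hX0.le (by linarith)
      nlinarith
    omega
  rw [hone] at hE
  -- `P ∣ Y - 1`
  have hY1 : (P : ℤ) ∣ (Y : ℤ) - 1 := by
    have h7 : (c : ℤ) * (Y - 1) = a * (Z - U * Y) := by
      apply mul_left_cancel₀ (mul_pos hG hX0).ne'
      linear_combination (a : ℤ) * h6 - (a : ℤ) * h4 - (c : ℤ) * h3 + (c : ℤ) * h1
    have h8 : (P : ℤ) ∣ (c : ℤ) * (Y - 1) := by
      rw [h7]; exact Dvd.dvd.mul_left (dvd_sub hZ' (Dvd.dvd.mul_right hU' _)) _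
    exact (hPz.dvd_or_dvd h8).resolve_left hPc'
  have hfin : (P : ℤ) ∣ (a : ℤ) * a := by
    have : (a : ℤ) * a = a * a * U + (G * W - G * X) * (Y - 1) := by
      linear_combination hk + hone + (G : ℤ) * hE
    rw [this]
    exact dvd_add (Dvd.dvd.mul_left hU' _) (Dvd.dvd.mul_left hY1 _)
  exact hPa' ((hPz.dvd_or_dvd hfin).elim id id)

theorem caseA {i1 i2 i3 i4 i5 i6 : ℕ} (h53 : i5 < i3) (h36 : i3 < i6)
    (e1 : i3 ≤ i5 ∨ i4 ≤ i5 ∨ i2 ≤ i5) (e2 : i3 ≤ i2 ∨ i4 ≤ i2 ∨ i5 ≤ i2)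
    (e3 : i2 ≤ i4 ∨ i5 ≤ i4 ∨ i3 ≤ i4) (e6 : i3 ≤ i1 ∨ i4 ≤ i1 ∨ i6 ≤ i1)
    (e8 : i1 ≤ i3 ∨ i6 ≤ i3 ∨ i4 ≤ i3)
    (e10 : i2 ≤ i1 ∨ i5 ≤ i1 ∨ i6 ≤ i1) (e11 : i1 ≤ i5 ∨ i6 ≤ i5 ∨ i2 ≤ i5)
    (e12 : i1 ≤ i2 ∨ i6 ≤ i2 ∨ i5 ≤ i2) :
    (i2 < i5 ∧ i4 = i2 ∧ i1 = i2) ∨ (i2 = i5 ∧ i5 ≤ i4 ∧ i5 ≤ i1 ∧ (i4 ≤ i3 ∨ i1 = i3)) ∨
      (i5 < i2 ∧ i4 = i5 ∧ i1 = i5) := by
  rcases lt_trichotomy i2 i5 with h | h | h
  · left
    refine ⟨h, ?_, ?_⟩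
    · clear e1 e6 e8 e10 e11 e12; omega
    · clear e1 e2 e3 e6 e8 e11; omega
  · right; left
    refine ⟨h, ?_, ?_, ?_⟩
    · clear e1 e2 e6 e8 e10 e11 e12; omega
    · clear e1 e2 e3 e6 e8 e11 e12; omega
    · clear e1 e2 e3 e10 e11 e12; omega
  · right; right
    refine ⟨h, ?_, ?_⟩
    · clear e2 e6 e8 e10 e11 e12; omega
    · clear e1 e2 e3 e6 e8 e12; omega

theorem caseB {j1 j2 j3 j4 j5 j6 : ℕ} (h63 : j6 < j3) (h35 : j3 < j5)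
    (e2 : j3 ≤ j2 ∨ j4 ≤ j2 ∨ j5 ≤ j2) (e4 : j2 ≤ j3 ∨ j5 ≤ j3 ∨ j4 ≤ j3)
    (e5 : j3 ≤ j6 ∨ j4 ≤ j6 ∨ j1 ≤ j6) (e6 : j3 ≤ j1 ∨ j4 ≤ j1 ∨ j6 ≤ j1)
    (e7 : j1 ≤ j4 ∨ j6 ≤ j4 ∨ j3 ≤ j4) (e9 : j2 ≤ j6 ∨ j5 ≤ j6 ∨ j1 ≤ j6)
    (e10 : j2 ≤ j1 ∨ j5 ≤ j1 ∨ j6 ≤ j1) (e11 : j1 ≤ j2 ∨ j6 ≤ j2 ∨ j5 ≤ j2) :
    (j1 < j6 ∧ j4 = j1 ∧ j2 = j1) ∨ (j1 = j6 ∧ j6 ≤ j4 ∧ j6 ≤ j2 ∧ (j4 ≤ j3 ∨ j2 = j3)) ∨
      (j6 < j1 ∧ j4 = j6 ∧ j2 = j6) := by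
  rcases lt_trichotomy j1 j6 with h | h | h
  · left
    refine ⟨h, ?_, ?_⟩
    · clear e2 e4 e5 e9 e10 e11; omega
    · clear e2 e4 e5 e6 e7 e9; omega
  · right; left
    refine ⟨h, ?_, ?_, ?_⟩
    · clear e2 e4 e5 e6 e9 e10 e11; omega
    · clear e2 e4 e5 e6 e7 e9 e10; omega
    · clear e5 e6 e7 e9 e10 e11; omega
  · right; right
    refine ⟨h, ?_, ?_⟩
    · clear e2 e4 e6 e9 e10 e11; omega
    · clear e2 e4 e5 e6 e7 e10; omega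

theorem combine {i1 i2 i3 i4 i5 j1 j2 j3 j4 j5 j6 : ℕ} (h53 : i5 < i3) (h63 : j6 < j3)
    (h35 : j3 < j5)
    (cA : (i2 < i5 ∧ i4 = i2 ∧ i1 = i2) ∨ (i2 = i5 ∧ i5 ≤ i4 ∧ i5 ≤ i1 ∧ (i4 ≤ i3 ∨ i1 = i3)) ∨
      (i5 < i2 ∧ i4 = i5 ∧ i1 = i5))
    (cB : (j1 < j6 ∧ j4 = j1 ∧ j2 = j1) ∨ (j1 = j6 ∧ j6 ≤ j4 ∧ j6 ≤ j2 ∧ (j4 ≤ j3 ∨ j2 = j3)) ∨
      (j6 < j1 ∧ j4 = j6 ∧ j2 = j6))
    (l34 : i3 < i4 ∨ j3 < j4) (l12 : i1 < i2 ∨ j1 < j2)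
    (n24 : i4 < i2 ∨ j4 < j2) (n135 : ¬ (i1 ≤ i3 ∧ j1 ≤ j3 ∧ i1 ≤ i5 ∧ j1 ≤ j5))
    (e3 : j2 ≤ j4 ∨ j5 ≤ j4 ∨ j3 ≤ j4) (e4 : j2 ≤ j3 ∨ j5 ≤ j3 ∨ j4 ≤ j3) :
    i2 = i5 ∧ i1 = i3 ∧ i3 < i4 ∧ j1 = j6 ∧ j4 = j3 ∧ j3 < j2 := by
  rcases l34 with h | h
  · have a1 : i2 = i5 ∧ i1 = i3 := by clear cB l12 n24 n135 e3 e4; omega
    obtain ⟨rfl, rfl⟩ := a1
    clear cA n135
    have a2 : j1 < j2 := by clear cB n24 e3 e4; omega
    have a3 : j4 < j2 := by clear cB l12 e3 e4; omega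
    clear l12 n24
    have a4 : j1 = j6 := by clear e3 e4; omega
    have a5 : j3 ≤ j4 ∨ j5 ≤ j4 := by clear cB e4; omega
    have a6 : j4 ≤ j3 := by clear cB e3; omega
    refine ⟨rfl, rfl, h, a4, ?_, ?_⟩
    · clear cB e3 e4; omega
    · clear cB e3 e4; omega
  · exfalso
    have a1 : j1 = j6 ∧ j2 = j3 := by clear cA l12 n24 n135 e3 e4; omega
    obtain ⟨rfl, rfl⟩ := a1
    clear cB e3 e4
    have a2 : i4 < i2 := by clear cA l12 n135; omega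
    have a3 : i1 = i5 := by clear l12 n135 n24; omega
    clear cA l12 n24
    omega

theorem main_lt {P Q : ℕ} (hP : P.Prime) (hQ : Q.Prime) (hPQ : P ≠ Q) {a b c d : ℕ}
    (ha : 0 < a) (hab : a < b) (hbc : b < c) (hcd : c < d)
    {i1 j1 i2 j2 i3 j3 i4 j4 i5 j5 i6 j6 : ℕ}
    (h1 : a * b + 1 = P ^ i1 * Q ^ j1) (h2 : a * c + 1 = P ^ i2 * Q ^ j2)
    (h3 : a * d + 1 = P ^ i3 * Q ^ j3) (h4 : b * c + 1 = P ^ i4 * Q ^ j4)
    (h5 : b * d + 1 = P ^ i5 * Q ^ j5) (h6 : c * d + 1 = P ^ i6 * Q ^ j6) (h56 : i5 < i6) :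
    False := by
  have n35 := ndvd_exps h3 h5 ha hab (by omega)
  have n36 := ndvd_exps h3 h6 ha (by omega) hcd
  have n56 := ndvd_exps h5 h6 (by omega) hbc hcd
  have n24 := ndvd_exps h2 h4 ha hab hbc
  have l35 := lt_exps h3 h5 (by omega) (by nlinarith)
  have l36 := lt_exps h3 h6 (by omega) (by nlinarith)
  have l12 := lt_exps h1 h2 (by omega) (by nlinarith)
  have hba : b - a < b := by omega
  have hca : c - a < c := by omega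
  have hcb : c - b < c := by omega
  -- `ad + 1` is the middle element of the antichain
  have m5 : ¬ (i3 < i5) := by
    intro h
    have g1 : P ^ i5 ∣ c - b :=
      dvd_diff (h5 ▸ (powL_dvd hP hQ hPQ).2 le_rfl) (h6 ▸ (powL_dvd hP hQ hPQ).2 (by omega))
    have g2 : Q ^ j5 ∣ b - a :=
      dvd_diff (h3 ▸ (powR_dvd hP hQ hPQ).2 (by omega)) (h5 ▸ (powR_dvd hP hQ hPQ).2 le_rfl)
    have g3 := Nat.mul_le_mul (Nat.le_of_dvd (by omega) g1) (Nat.le_of_dvd (by omega) g2)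
    have g4 : (c - b) * (b - a) ≤ d * b := Nat.mul_le_mul (by omega) (by omega)
    rw [← h5] at g3
    nlinarith
  have m6 : ¬ (i6 < i3) := by
    intro h
    have g1 : P ^ i6 ∣ c - a :=
      dvd_diff (h3 ▸ (powL_dvd hP hQ hPQ).2 (by omega)) (h6 ▸ (powL_dvd hP hQ hPQ).2 le_rfl)
    have g2 : Q ^ j6 ∣ c - b :=
      dvd_diff (h5 ▸ (powR_dvd hP hQ hPQ).2 (by omega)) (h6 ▸ (powR_dvd hP hQ hPQ).2 le_rfl)
    have g3 := Nat.mul_le_mul (Nat.le_of_dvd (by omega) g1) (Nat.le_of_dvd (by omega) g2)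
    have g4 : (c - a) * (c - b) ≤ c * d := Nat.mul_le_mul (by omega) (by omega)
    rw [← h6] at g3
    nlinarith
  have o1 : i5 < i3 ∧ i3 < i6 ∧ j6 < j3 ∧ j3 < j5 := by omega
  have m3 : a * d + 1 < b * c + 1 := by
    have g1 : P ^ i3 ∣ c - a :=
      dvd_diff (h3 ▸ (powL_dvd hP hQ hPQ).2 le_rfl) (h6 ▸ (powL_dvd hP hQ hPQ).2 (by omega))
    have g2 : Q ^ j3 ∣ b - a :=
      dvd_diff (h3 ▸ (powR_dvd hP hQ hPQ).2 le_rfl) (h5 ▸ (powR_dvd hP hQ hPQ).2 (by omega))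
    have g3 := Nat.mul_le_mul (Nat.le_of_dvd (by omega) g1) (Nat.le_of_dvd (by omega) g2)
    have g4 : (c - a) * (b - a) ≤ c * b := Nat.mul_le_mul (by omega) (by omega)
    rw [← h3] at g3
    nlinarith
  have l34 := lt_exps h3 h4 (by omega) m3
  have n135 : ¬ (i1 ≤ i3 ∧ j1 ≤ j3 ∧ i1 ≤ i5 ∧ j1 ≤ j5) := by
    rintro ⟨g1, g2, g3, g4⟩
    have g5 := dvd_diff (dvd_of_exps h1 h3 g1 g2) (dvd_of_exps h1 h5 g3 g4)
    have g6 := Nat.le_of_dvd (by omega) g5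
    have g7 : b ≤ a * b := Nat.le_mul_of_pos_left b ha
    omega
  have e1 := minL hP hQ hPQ (by ring) h3 h4 h2 h5
  have e2 := minL hP hQ hPQ (by ring) h3 h4 h5 h2
  have e3 := minL hP hQ hPQ (by ring) h2 h5 h3 h4
  have e4 := minL hP hQ hPQ (by ring) h2 h5 h4 h3
  have e5 := minL hP hQ hPQ (by ring) h3 h4 h1 h6
  have e6 := minL hP hQ hPQ (by ring) h3 h4 h6 h1
  have e7 := minL hP hQ hPQ (by ring) h1 h6 h3 h4
  have e8 := minL hP hQ hPQ (by ring) h1 h6 h4 h3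
  have e9 := minL hP hQ hPQ (by ring) h2 h5 h1 h6
  have e10 := minL hP hQ hPQ (by ring) h2 h5 h6 h1
  have e11 := minL hP hQ hPQ (by ring) h1 h6 h2 h5
  have e12 := minL hP hQ hPQ (by ring) h1 h6 h5 h2
  have cA := caseA o1.1 o1.2.1 e1.1 e2.1 e3.1 e6.1 e8.1 e10.1 e11.1 e12.1
  have cB := caseB o1.2.2.1 o1.2.2.2 e2.2 e4.2 e5.2 e6.2 e7.2 e9.2 e10.2 e12.2
  have o2 := combine o1.1 o1.2.2.1 o1.2.2.2 cA cB l34 l12 n24 n135 e3.2 e4.2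
  clear cA cB e1 e2 e3 e4 e5 e6 e7 e8 e9 e10 e11 e12 l34 l12 n24 n135 n35 n36 n56 l35 l36 m5 m6
  obtain ⟨rfl, rfl, o3, rfl, rfl, o4⟩ := o2
  obtain ⟨o5, o6, o7, -⟩ := o1
  obtain ⟨A, rfl⟩ : ∃ A, i1 = i2 + (A + 1) := ⟨i1 - i2 - 1, by omega⟩
  obtain ⟨f, rfl⟩ : ∃ f, i4 = i2 + (A + 1) + (f + 1) := ⟨i4 - (i2 + (A + 1)) - 1, by omega⟩
  obtain ⟨B, rfl⟩ : ∃ B, i6 = i2 + (A + 1) + (B + 1) := ⟨i6 - (i2 + (A + 1)) - 1, by omega⟩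
  obtain ⟨D, rfl⟩ : ∃ D, j4 = j1 + D := ⟨j4 - j1, by omega⟩
  obtain ⟨e, rfl⟩ : ∃ e, j2 = j1 + D + e := ⟨j2 - (j1 + D), by omega⟩
  exact final (G := P ^ i2 * Q ^ j1) (X := P ^ (A + 1)) (Y := Q ^ D) (W := Q ^ e) (U := P ^ (f + 1))
    (Z := P ^ (B + 1)) hP ha hab hcd (by rw [h1]; ring) (by rw [h2]; ring) (by rw [h3]; ring)
    (by rw [h4]; ring) (by rw [h6]; ring) (by omega) (dvd_pow_self _ (by omega))
    (dvd_pow_self _ (by omega)) (dvd_pow_self _ (by omega))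

/-- There is no `{P, Q}`-Diophantine quadruple. -/
theorem main {P Q : ℕ} (hP : P.Prime) (hQ : Q.Prime) (hPQ : P ≠ Q) {a b c d : ℕ}
    (ha : 0 < a) (hab : a < b) (hbc : b < c) (hcd : c < d)
    {i1 j1 i2 j2 i3 j3 i4 j4 i5 j5 i6 j6 : ℕ}
    (h1 : a * b + 1 = P ^ i1 * Q ^ j1) (h2 : a * c + 1 = P ^ i2 * Q ^ j2)
    (h3 : a * d + 1 = P ^ i3 * Q ^ j3) (h4 : b * c + 1 = P ^ i4 * Q ^ j4)
    (h5 : b * d + 1 = P ^ i5 * Q ^ j5) (h6 : c * d + 1 = P ^ i6 * Q ^ j6) : False := by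
  by_cases h : i5 < i6
  · exact main_lt hP hQ hPQ ha hab hbc hcd h1 h2 h3 h4 h5 h6 h
  · have l56 := lt_exps h5 h6 (by omega) (by nlinarith)
    rw [mul_comm (P ^ _) (Q ^ _)] at h1 h2 h3 h4 h5 h6
    exact main_lt hQ hP hPQ.symm ha hab hbc hcd h1 h2 h3 h4 h5 h6 (by omega)

end Pool.Agent.H203Z.PQQuad
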