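import Mathlib
import Pool.Agent.H203Z.StarData

set_option autoImplicit false

/-! A regular language on which the star removal procedure never stops.  The language `A` is
accepted by a 51-state automaton over the letters `t = 0`, `x = 1`, `y = 2`, `z = 3`; one step of
the procedure turns `A` into its image under the morphism `t ↦ t x x`. -/

namespace Pool.Agent.H203Z.Star

abbrev Al := Fin 4

def dl (q : ℕ) (a : Al) : ℕ := (tbl >>> (6 * (4 * q + a.val))) % 64
def acc (q : ℕ) : Bool := accM.testBit q
def tp (q : ℕ) : Bool := tpM.testBit q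
def sim (p q : ℕ) : Bool := simM.testBit (64 * p + q)
def run (q : ℕ) (w : List Al) : ℕ := w.foldl dl q
def A : Set (List Al) := {w | acc (run 0 w) = true}

/-- One step of the procedure. -/
def stepL (X : Set (List Al)) : Set (List Al) :=
  {w | w ∈ X ∧ ¬ ∃ s : List Al, s ≠ [] ∧ (∀ a ∈ X, s ++ a ∈ X) ∧ ∃ a ∈ X, s ++ a = w}

theorem dl_lt (q : ℕ) (a : Al) : dl q a < 64 := Nat.mod_lt _ (by norm_num)

theorem run_append (q : ℕ) (u v : List Al) : run q (u ++ v) = run (run q u) v := by
  simp [run, List.foldl_append]

theorem run_cons (q : ℕ) (a : Al) (v : List Al) : run q (a :: v) = run (dl q a) v := rfl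

theorem run_lt (w : List Al) : ∀ q : ℕ, q < 64 → run q w < 64 := by
  induction w with
  | nil => intro q h; exact h
  | cons a w ih => intro q _; exact ih _ (dl_lt q a)

def letters : List Al := [0, 1, 2, 3]

theorem mem_letters (a : Al) : a ∈ letters := by
  fin_cases a <;> simp [letters]

def chkSim : Bool :=
  (List.range 64).all fun p => (List.range 64).all fun q =>
    !sim p q || ((!acc p || acc q) && letters.all fun a => sim (dl p a) (dl q a))

theorem chkSim_true : chkSim = true := by decide +kernel

def wits : List (List Al) := [[], [0], [3], [0, 2, 3]]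

def chkTp : Bool :=
  (List.range 64).all fun q =>
    if tp q then sim 0 q else wits.any fun c => acc (run 0 c) && !acc (run q c)

theorem chkTp_true : chkTp = true := by decide +kernel

theorem sim_acc (c : List Al) : ∀ p q : ℕ, p < 64 → q < 64 → sim p q = true →
    acc (run p c) = true → acc (run q c) = true := by
  have h := chkSim_true
  unfold chkSim at h
  rw [List.all_eq_true] at h
  induction c with
  | nil =>
    intro p q hp hq hs ha
    have h1 := h p (List.mem_range.2 hp)
    rw [List.all_eq_true] at h1
    have h2 := h1 q (List.mem_range.2 hq)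
    simp only [hs, Bool.not_true, Bool.false_or, Bool.and_eq_true, Bool.or_eq_true,
      Bool.not_eq_true'] at h2
    rcases h2.1 with h3 | h3
    · have : acc p = true := ha
      rw [h3] at this
      exact absurd this (by simp)
    · exact h3
  | cons a c ih =>
    intro p q hp hq hs ha
    have h1 := h p (List.mem_range.2 hp)
    rw [List.all_eq_true] at h1
    have h2 := h1 q (List.mem_range.2 hq)
    simp only [hs, Bool.not_true, Bool.false_or, Bool.and_eq_true] at h2
    have h3 := List.all_eq_true.1 h2.2 a (mem_letters a)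
    exact ih _ _ (dl_lt p a) (dl_lt q a) h3 ha

theorem stab_iff (s : List Al) : (∀ a ∈ A, s ++ a ∈ A) ↔ tp (run 0 s) = true := by
  have h := chkTp_true
  unfold chkTp at h
  rw [List.all_eq_true] at h
  have hq : run 0 s < 64 := run_lt s 0 (by norm_num)
  have h1 := h _ (List.mem_range.2 hq)
  constructor
  · intro hs
    by_contra hn
    rw [if_neg hn, List.any_eq_true] at h1
    obtain ⟨c, -, hc⟩ := h1
    simp only [Bool.and_eq_true, Bool.not_eq_true'] at hc
    have h2 : acc (run 0 (s ++ c)) = true := hs c hc.1
    rw [run_append, hc.2] at h2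
    exact absurd h2 (by simp)
  · intro ht c hc
    rw [if_pos ht] at h1
    show acc (run 0 (s ++ c)) = true
    rw [run_append]
    exact sim_acc c 0 _ (by norm_num) hq h1 hc

/-- The morphism `t ↦ t x x`. -/
def phi : List Al → List Al
  | [] => []
  | a :: u => if a = 0 then 0 :: 1 :: 1 :: phi u else a :: phi u

theorem phi_append (u v : List Al) : phi (u ++ v) = phi u ++ phi v := by
  induction u with
  | nil => rfl
  | cons a u ih =>
    by_cases h : a = 0 <;> simp [phi, h, ih]

theorem phi_inj : ∀ u v : List Al, phi u = phi v → u = v := by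
  intro u
  induction u with
  | nil =>
    intro v h
    cases v with
    | nil => rfl
    | cons b v => by_cases hb : b = 0 <;> simp [phi, hb] at h
  | cons a u ih =>
    intro v h
    cases v with
    | nil => by_cases ha : a = 0 <;> simp [phi, ha] at h
    | cons b v =>
      by_cases ha : a = 0 <;> by_cases hb : b = 0
      · simp only [phi, ha, hb, if_true, List.cons.injEq, true_and] at h
        rw [ha, hb, ih v h]
      · simp only [phi, ha, hb, if_true, if_false, List.cons.injEq] at h
        exact absurd h.1.symm hb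
      · simp [phi, ha, hb] at h
      · simp only [phi, ha, hb, if_false, List.cons.injEq] at h
        rw [h.1, ih v h.2]

theorem phi_ne_nil {u : List Al} (h : u ≠ []) : phi u ≠ [] := by
  intro h1
  exact h (phi_inj u [] h1)

def nstep (s : ℕ) (a : Al) : ℕ :=
  if s = 999 then 999
  else if s % 3 = 0 then (if a = 0 then s + 1 else 3 * dl (s / 3) a)
  else if s % 3 = 1 then (if a = 1 then s + 1 else 999)
  else (if a = 1 then 3 * dl (s / 3) 0 else 999)

def accN (s : ℕ) : Bool := decide (s ≠ 999) && decide (s % 3 = 0) && acc (s / 3)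

theorem nstep_dead (w : List Al) : w.foldl nstep 999 = 999 := by
  induction w with
  | nil => rfl
  | cons a w ih => simpa [nstep] using ih

theorem accN_dead : accN 999 = false := by simp [accN]

theorem nstep0 (q : ℕ) (hq : q < 64) (a : Al) :
    nstep (3 * q) a = if a = 0 then 3 * q + 1 else 3 * dl q a := by
  have h1 : 3 * q ≠ 999 := by omega
  have h2 : 3 * q % 3 = 0 := by omega
  have h3 : 3 * q / 3 = q := by omega
  simp only [nstep, h1, h2, h3, if_false, if_true]

theorem nstep1 (q : ℕ) (hq : q < 64) (a : Al) :
    nstep (3 * q + 1) a = if a = 1 then 3 * q + 2 else 999 := by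
  have h1 : 3 * q + 1 ≠ 999 := by omega
  have h2 : (3 * q + 1) % 3 = 1 := by omega
  simp only [nstep, h1, h2, if_false, if_true, one_ne_zero]

theorem nstep2 (q : ℕ) (hq : q < 64) (a : Al) :
    nstep (3 * q + 2) a = if a = 1 then 3 * dl q 0 else 999 := by
  have h1 : 3 * q + 2 ≠ 999 := by omega
  have h2 : (3 * q + 2) % 3 = 2 := by omega
  have h3 : (3 * q + 2) / 3 = q := by omega
  simp only [nstep, h1, h2, h3, if_false]
  simp

theorem accN_iff (n : ℕ) : ∀ (w : List Al) (q : ℕ), w.length ≤ n → q < 64 →
    (accN (w.foldl nstep (3 * q)) = true ↔ ∃ u, w = phi u ∧ acc (run q u) = true) := by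
  induction n with
  | zero =>
    intro w q hw hq
    have : w = [] := List.length_eq_zero_iff.1 (by omega)
    subst this
    have h1 : 3 * q ≠ 999 := by omega
    have h2 : 3 * q % 3 = 0 := by omega
    have h3 : 3 * q / 3 = q := by omega
    constructor
    · intro h
      refine ⟨[], rfl, ?_⟩
      simpa [accN, h1, h2, h3, run] using h
    · rintro ⟨u, hu, ha⟩
      have : u = [] := phi_inj u [] hu.symm
      subst this
      simpa [accN, h1, h2, h3, run] using ha
  | succ n ih =>
    intro w q hw hq
    cases w with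
    | nil => exact ih [] q (by simp) hq
    | cons a w =>
      rw [List.foldl_cons, nstep0 q hq]
      by_cases ha : a = 0
      · subst ha
        rw [if_pos rfl]
        have key : ∀ u, (0 : Al) :: w = phi u → ∃ u', u = 0 :: u' ∧ w = 1 :: 1 :: phi u' := by
          intro u hu
          cases u with
          | nil => simp [phi] at hu
          | cons b u' =>
            by_cases hb : b = 0
            · subst hb
              simp only [phi, if_true, List.cons.injEq, true_and] at hu
              exact ⟨u', rfl, hu⟩
            · simp only [phi, hb, if_false, List.cons.injEq] at hu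
              exact absurd hu.1.symm hb
        constructor
        · intro h
          cases w with
          | nil =>
            exfalso
            have h2 : (3 * q + 1) % 3 = 1 := by omega
            simp [accN, h2] at h
          | cons b w =>
            rw [List.foldl_cons, nstep1 q hq] at h
            by_cases hb : b = 1
            · subst hb
              rw [if_pos rfl] at h
              cases w with
              | nil =>
                exfalso
                have h2 : (3 * q + 2) % 3 = 2 := by omega
                simp [accN, h2] at h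
              | cons c w =>
                rw [List.foldl_cons, nstep2 q hq] at h
                by_cases hc : c = 1
                · subst hc
                  rw [if_pos rfl] at h
                  obtain ⟨u, hu, hacc⟩ := (ih w _ (by simp at hw; omega) (dl_lt q 0)).1 h
                  exact ⟨0 :: u, by simp [phi, hu], hacc⟩
                · rw [if_neg hc, nstep_dead, accN_dead] at h
                  exact absurd h (by simp)
            · rw [if_neg hb, nstep_dead, accN_dead] at h
              exact absurd h (by simp)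
        · rintro ⟨u, hu, hacc⟩
          obtain ⟨u', rfl, rfl⟩ := key u hu
          rw [List.foldl_cons, nstep1 q hq, if_pos rfl, List.foldl_cons, nstep2 q hq, if_pos rfl]
          exact (ih _ _ (by simp at hw; omega) (dl_lt q 0)).2 ⟨u', rfl, hacc⟩
      · rw [if_neg ha, ih w _ (by simp at hw; omega) (dl_lt q a)]
        constructor
        · rintro ⟨u, hu, hacc⟩
          exact ⟨a :: u, by simp [phi, ha, hu], hacc⟩
        · rintro ⟨u, hu, hacc⟩
          cases u with
          | nil => simp [phi] at hu
          | cons b u' =>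
            by_cases hb : b = 0
            · simp only [phi, hb, if_true, List.cons.injEq] at hu
              exact absurd hu.1 ha
            · simp only [phi, hb, if_false, List.cons.injEq] at hu
              obtain ⟨rfl, rfl⟩ := hu
              exact ⟨u', rfl, hacc⟩

def ent (i : ℕ) : ℕ × List ℕ × ℕ × List ℕ := ents.getD i (0, [], 0, [])

def img (q : ℕ) (L : List ℕ) (a : Al) : List ℕ :=
  L.map (fun r => dl r a) ++ (if tp (dl q a) then [0] else [])

def chkEnt (e : ℕ × List ℕ × ℕ × List ℕ) : Bool :=
  ((acc e.1 && e.2.1.all fun p => !acc p) == accN e.2.2.1) &&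
  letters.all fun a =>
    decide (e.2.2.2.getD a.val 0 < 490) &&
    (fun e' : ℕ × List ℕ × ℕ × List ℕ =>
      (e'.1 == dl e.1 a) && (e'.2.2.1 == nstep e.2.2.1 a) &&
      (e'.2.1.all fun p => (img e.1 e.2.1 a).contains p) &&
      ((img e.1 e.2.1 a).all fun p => e'.2.1.contains p)) (ent (e.2.2.2.getD a.val 0))

def chkAll : Bool := (List.range 490).all fun i => chkEnt (ent i)

theorem chkAll_true : chkAll = true := by decide +kernel

theorem ent_zero : (ent 0).1 = 0 ∧ (ent 0).2.1 = [] ∧ (ent 0).2.2.1 = 0 := by decide +kernel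

theorem inv (w : List Al) : ∃ i, i < 490 ∧ (ent i).1 = run 0 w ∧
    (ent i).2.2.1 = w.foldl nstep 0 ∧
    ∀ p, p ∈ (ent i).2.1 ↔ ∃ s c, w = s ++ c ∧ s ≠ [] ∧ tp (run 0 s) = true ∧ run 0 c = p := by
  have h := chkAll_true
  unfold chkAll at h
  rw [List.all_eq_true] at h
  induction w using List.reverseRecOn with
  | nil =>
    refine ⟨0, by norm_num, ent_zero.1, ent_zero.2.2, fun p => ?_⟩
    rw [ent_zero.2.1]
    constructor
    · intro hp; simp at hp
    · rintro ⟨s, c, h1, h2, -⟩
      have := List.append_eq_nil_iff.1 h1.symm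
      exact absurd this.1 h2
  | append_singleton w a ih =>
    obtain ⟨i, hi, h1, h2, h3⟩ := ih
    have h4 := h i (List.mem_range.2 hi)
    unfold chkEnt at h4
    rw [Bool.and_eq_true] at h4
    have h5 := List.all_eq_true.1 h4.2 a (mem_letters a)
    simp only [Bool.and_eq_true, decide_eq_true_eq, beq_iff_eq, List.all_eq_true,
      List.contains_iff_mem] at h5
    obtain ⟨hj, ⟨⟨e1, e2⟩, e3⟩, e4⟩ := h5
    have hrun : run 0 (w ++ [a]) = dl (ent i).1 a := by
      rw [run_append, h1]; rfl
    refine ⟨_, hj, by rw [e1, hrun], by rw [e2, h2, List.foldl_append]; rfl, fun p => ?_⟩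
    have h6 : p ∈ (ent ((ent i).2.2.2.getD a.val 0)).2.1 ↔ p ∈ img (ent i).1 (ent i).2.1 a :=
      ⟨e3 p, e4 p⟩
    rw [h6]
    unfold img
    rw [List.mem_append, List.mem_map]
    constructor
    · rintro (⟨r, hr, rfl⟩ | hp)
      · obtain ⟨s, c, rfl, hs, ht, rfl⟩ := (h3 r).1 hr
        exact ⟨s, c ++ [a], by simp, hs, ht, by rw [run_append]; rfl⟩
      · by_cases ht : tp (dl (ent i).1 a) = true
        · rw [if_pos ht] at hp
          have : p = 0 := by simpa using hp
          subst this
          exact ⟨w ++ [a], [], by simp, by simp, by rw [hrun]; exact ht, rfl⟩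
        · rw [if_neg ht] at hp
          simp at hp
    · rintro ⟨s, c, hw, hs, ht, rfl⟩
      rcases List.eq_nil_or_concat c with rfl | ⟨c', b, rfl⟩
      · right
        rw [List.append_nil] at hw
        rw [← hw, hrun] at ht
        rw [if_pos ht]
        simp [run]
      · left
        rw [List.concat_eq_append, ← List.append_assoc] at hw
        have h7 := List.append_inj' hw rfl
        obtain ⟨h8, h9⟩ := h7
        have hb : a = b := by simpa using h9
        subst hb
        refine ⟨run 0 c', (h3 _).2 ⟨s, c', h8, hs, ht, rfl⟩, ?_⟩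
        rw [List.concat_eq_append, run_append]; rfl

theorem step_A : stepL A = phi '' A := by
  ext w
  obtain ⟨i, hi, h1, h2, h3⟩ := inv w
  have h := chkAll_true
  unfold chkAll at h
  rw [List.all_eq_true] at h
  have h4 := h i (List.mem_range.2 hi)
  unfold chkEnt at h4
  rw [Bool.and_eq_true] at h4
  have h5 := h4.1
  rw [beq_iff_eq, h1, h2] at h5
  have h6 := accN_iff w.length w 0 le_rfl (by norm_num)
  rw [Nat.mul_zero, ← h5] at h6
  have h7 : w ∈ phi '' A ↔ ∃ u, w = phi u ∧ acc (run 0 u) = true := by
    constructor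
    · rintro ⟨u, hu, rfl⟩; exact ⟨u, rfl, hu⟩
    · rintro ⟨u, rfl, hu⟩; exact ⟨u, hu, rfl⟩
  rw [h7, ← h6]
  simp only [Bool.and_eq_true, List.all_eq_true, Bool.not_eq_true']
  constructor
  · rintro ⟨hw, hn⟩
    refine ⟨hw, fun p hp => ?_⟩
    obtain ⟨s, c, rfl, hs, ht, rfl⟩ := (h3 p).1 hp
    by_contra hc
    exact hn ⟨s, hs, (stab_iff s).2 ht, c, by simpa [A] using hc, rfl⟩
  · rintro ⟨hw, hn⟩
    refine ⟨hw, ?_⟩
    rintro ⟨s, hs, hst, c, hc, rfl⟩
    have := hn _ ((h3 _).2 ⟨s, c, rfl, hs, (stab_iff s).1 hst, rfl⟩)
    have hc' : acc (run 0 c) = true := hc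
    rw [this] at hc'
    exact absurd hc' (by simp)

theorem nil_mem_A : ([] : List Al) ∈ A := by
  show acc (run 0 []) = true
  decide +kernel

theorem t_stab : ∀ a ∈ A, [(0 : Al)] ++ a ∈ A := by
  rw [stab_iff]
  decide +kernel

theorem step_image (X : Set (List Al)) (h0 : ([] : List Al) ∈ X) :
    stepL (phi '' X) = phi '' stepL X := by
  ext w
  constructor
  · rintro ⟨⟨u, hu, rfl⟩, hn⟩
    refine ⟨u, ⟨hu, ?_⟩, rfl⟩
    rintro ⟨s, hs, hst, c, hc, rfl⟩
    refine hn ⟨phi s, phi_ne_nil hs, ?_, phi c, ⟨c, hc, rfl⟩, (phi_append s c).symm⟩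
    rintro _ ⟨a, ha, rfl⟩
    exact ⟨s ++ a, hst a ha, phi_append s a⟩
  · rintro ⟨u, ⟨hu, hn⟩, rfl⟩
    refine ⟨⟨u, hu, rfl⟩, ?_⟩
    rintro ⟨s, hs, hst, _, ⟨c, hc, rfl⟩, he⟩
    obtain ⟨s', -, hs'⟩ := hst [] ⟨[], h0, rfl⟩
    rw [List.append_nil] at hs'
    subst hs'
    refine hn ⟨s', fun h => hs (by rw [h]; rfl), fun a ha => ?_, c, hc, ?_⟩
    · obtain ⟨b, hb, hb'⟩ := hst (phi a) ⟨a, ha, rfl⟩
      rw [← phi_append] at hb'
      rw [← phi_inj _ _ hb']
      exact hb
    · rw [← phi_append] at he
      exact phi_inj _ _ he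

theorem nil_mem_step (X : Set (List Al)) (h0 : ([] : List Al) ∈ X) : ([] : List Al) ∈ stepL X := by
  refine ⟨h0, ?_⟩
  rintro ⟨s, hs, -, c, -, he⟩
  exact hs (List.append_eq_nil_iff.1 he).1

theorem iter_succ (n : ℕ) : ([] : List Al) ∈ stepL^[n] A ∧
    stepL^[n + 1] A = phi '' (stepL^[n] A) := by
  induction n with
  | zero => exact ⟨nil_mem_A, step_A⟩
  | succ n ih =>
    refine ⟨?_, ?_⟩
    · rw [Function.iterate_succ_apply']
      exact nil_mem_step _ ih.1
    · rw [Function.iterate_succ_apply' stepL (n + 1), ih.2, step_image _ ih.1,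
        ← Function.iterate_succ_apply' stepL n, ih.2]

theorem never (n : ℕ) : ∃ s : List Al, s ≠ [] ∧ ∀ a ∈ stepL^[n] A, s ++ a ∈ stepL^[n] A := by
  induction n with
  | zero => exact ⟨[0], by simp, t_stab⟩
  | succ n ih =>
    obtain ⟨s, hs, hst⟩ := ih
    rw [(iter_succ n).2]
    refine ⟨phi s, phi_ne_nil hs, ?_⟩
    rintro _ ⟨a, ha, rfl⟩
    exact ⟨s ++ a, hst a ha, phi_append s a⟩

/-- The automaton. -/
def M : DFA Al (Fin 64) where
  step q a := ⟨dl q.val a, dl_lt _ _⟩
  start := 0
  accept := {q | acc q.val = true}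

theorem M_eval (w : List Al) : ∀ q : Fin 64, (M.evalFrom q w).val = run q.val w := by
  induction w with
  | nil => intro q; rfl
  | cons a w ih => intro q; exact ih _

theorem M_accepts (w : List Al) : w ∈ M.accepts ↔ w ∈ A := by
  rw [DFA.mem_accepts]
  show acc (M.evalFrom 0 w).val = true ↔ _
  rw [M_eval]
  rfl

end Pool.Agent.H203Z.Star
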